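import Mathlib

/-! Local graph charts of the boundary of a plane region, plane waves. -/

set_option autoImplicit false
open MeasureTheory Set Filter Topology ComplexConjugate

namespace Pool.Agent.Helper327_Drum

/-- the unit vector with angle `θ` -/
noncomputable def ee (θ : ℝ) : ℂ := Complex.exp (θ * Complex.I)

/-- the real inner product of the plane -/
def ip (x y : ℂ) : ℝ := x.re * y.re + x.im * y.im

/-- the open square with centre `q`, half side `δ` and sides parallel to `e` and `i e` -/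
def box (q e : ℂ) (δ : ℝ) : Set ℂ :=
  {x | ∃ t s : ℝ, |t| < δ ∧ |s| < δ ∧ x = q + (t + s * Complex.I) * e}

/-- the graph of `ψ` in the frame `(q; e, i e)` -/
noncomputable def cx (q e : ℂ) (ψ : ℝ → ℝ) (t : ℝ) : ℂ := q + (t + ψ t * Complex.I) * e

/-- its velocity -/
noncomputable def cv (e : ℂ) (ψ : ℝ → ℝ) (t : ℝ) : ℂ := (1 + deriv ψ t * Complex.I) * e

/-- In the square `box q e δ` the set `Ω` is the part above the graph of `ψ`, `γ` is the graph. -/
structure Chart (Ω γ : Set ℂ) (q e : ℂ) (δ : ℝ) (ψ : ℝ → ℝ) : Prop where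
  unit : ‖e‖ = 1
  pos : 0 < δ
  smooth : ContDiff ℝ 2 ψ
  zero : ψ 0 = 0
  slope : ∀ t, |t| < δ → |deriv ψ t| ≤ 1 / 2
  mem : ∀ t s : ℝ, |t| < δ → |s| < δ → (q + (t + s * Complex.I) * e ∈ Ω ↔ ψ t < s)
  memγ : ∀ t s : ℝ, |t| < δ → |s| < δ → (q + (t + s * Complex.I) * e ∈ γ ↔ s = ψ t)

end Pool.Agent.Helper327_Drum
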