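import Mathlib

/-! Simple closed curves, the region they enclose, drum solutions. -/

set_option autoImplicit false
open MeasureTheory Set Filter Topology

namespace Pool.Agent.Helper327_Drum

/-- A simple closed curve: the image of the unit circle under a continuous injective map. -/
def SimpleClosedCurve (R : Set ℂ) : Prop :=
  ∃ f : Circle → ℂ, Continuous f ∧ Function.Injective f ∧ Set.range f = R

/-- The region enclosed by `R`: the points off `R` whose connected component in the complement of `R`
is bounded. -/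
def inside (R : Set ℂ) : Set ℂ :=
  {x | x ∉ R ∧ Bornology.IsBounded (connectedComponentIn Rᶜ x)}

/-- The Laplacian `f_xx + f_yy` of a real function on the plane `ℂ`. -/
noncomputable def lap (f : ℂ → ℝ) (x : ℂ) : ℝ :=
  fderiv ℝ (fun y => fderiv ℝ f y 1) x 1 + fderiv ℝ (fun y => fderiv ℝ f y Complex.I) x Complex.I

/-- `z` is a drum solution on the closed curve `R` with wave speed `c`, and `g = z_x + i z_y` is the
continuous extension of its spatial gradient to the closed region: `z` is twice continuously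
differentiable in `D × ℝ` (`D` the region enclosed by `R`), `z` and its gradient are continuous on
`(D ∪ R) × ℝ`, `z_tt = c² (z_xx + z_yy)` in `D × ℝ`, `z = 0` on `R × ℝ`, and `z` is not identically
zero. -/
structure DrumSolution (R : Set ℂ) (c : ℝ) (z : ℂ → ℝ → ℝ) (g : ℂ → ℝ → ℂ) : Prop where
  smooth : ContDiffOn ℝ 2 (fun p : ℂ × ℝ => z p.1 p.2) (inside R ×ˢ univ)
  cont : ContinuousOn (fun p : ℂ × ℝ => z p.1 p.2) ((inside R ∪ R) ×ˢ univ)
  grad : ∀ x ∈ inside R, ∀ t,
    g x t = ⟨fderiv ℝ (fun y => z y t) x 1, fderiv ℝ (fun y => z y t) x Complex.I⟩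
  grad_cont : ContinuousOn (fun p : ℂ × ℝ => g p.1 p.2) ((inside R ∪ R) ×ˢ univ)
  wave : ∀ x ∈ inside R, ∀ t, iteratedDeriv 2 (z x) t = c ^ 2 * lap (fun y => z y t) x
  clamped : ∀ x ∈ R, ∀ t, z x t = 0
  nontrivial : ∃ x ∈ inside R ∪ R, ∃ t, z x t ≠ 0

/-- `φ` is a Dirichlet eigenfunction of the open set `D` for the eigenvalue `lam`: continuous on the
closure, zero on the boundary, twice continuously differentiable in `D` with `-Δφ = lam φ`. -/
structure DirichletEigenfunction (D : Set ℂ) (lam : ℝ) (φ : ℂ → ℝ) : Prop where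
  smooth : ContDiffOn ℝ 2 φ D
  cont : ContinuousOn φ (closure D)
  zero : ∀ x ∈ frontier D, φ x = 0
  eq : ∀ x ∈ D, lap φ x = -(lam * φ x)

/-- The eigenvalue `lam` occurs in `z` (the frequency `c √lam` is excited): for some Dirichlet
eigenfunction `φ` of `D` for `lam` and some time `t` the coefficient `∫_D z(·,t) φ` is not zero. -/
def Excites (R : Set ℂ) (z : ℂ → ℝ → ℝ) (lam : ℝ) : Prop :=
  ∃ φ : ℂ → ℝ, DirichletEigenfunction (inside R) lam φ ∧
    ∃ t : ℝ, ∫ x in inside R, z x t * φ x ≠ 0

end Pool.Agent.Helper327_Drum
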