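import Pool.Agent.R227.SA10

/-! Elliptic coordinates. -/

set_option autoImplicit false
open MeasureTheory Set Filter Topology ComplexConjugate
open scoped ContDiff

namespace Pool.Agent.Helper327_Drum

open Pool.Agent.TH298.Sch (dd SC Lr)
open Pool.Agent.R227.SA (la Wat Dat)

/-- solutions in the strip `|ξ| < ξ₀` of elliptic coordinates `ζ = ξ + i η` -/
structure Strip (ξ₀ K : ℝ) (U : ℂ → ℝ) : Prop where
  cont : Continuous U
  out : ∀ ζ : ℂ, ξ₀ ≤ |ζ.re| → U ζ = 0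
  per : ∀ ζ : ℂ, U (ζ + 2 * Real.pi * Complex.I) = U ζ
  smooth : ∀ ζ : ℂ, |ζ.re| < ξ₀ → ContDiffAt ℝ ∞ U ζ
  eq : ∀ ζ : ℂ, |ζ.re| < ξ₀ →
    la U ζ = -(K * (Real.cosh (2 * ζ.re) - Real.cos (2 * ζ.im)) * U ζ)

/-- the Fourier coefficients along the lines `ξ = const` -/
noncomputable def fcoef (U : ℂ → ℝ) (n : ℤ) (ξ : ℝ) : ℂ :=
  ∫ η in (-Real.pi)..Real.pi, (U (ξ + η * Complex.I) : ℂ) * Complex.exp (-(n * η * Complex.I))

/-- the open ellipse with foci `±f` -/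
def ell (f ξ₀ : ℝ) : Set ℂ :=
  {x | (x.re / (f * Real.cosh ξ₀)) ^ 2 + (x.im / (f * Real.sinh ξ₀)) ^ 2 < 1}

/-- an operator commuting with the Laplacian -/
noncomputable def eop (f lam : ℝ) (u : ℂ → ℝ) (x : ℂ) : ℝ :=
  Lr (Lr u) x + f ^ 2 * dd 1 (dd 1 u) x + lam * f ^ 2 / 2 * u x

end Pool.Agent.Helper327_Drum
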