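import Pool.Agent.Helper327_Drum.Defs

/-! Simple eigenvalues. -/

set_option autoImplicit false

namespace Pool.Agent.Helper327_Drum

/-- The eigenvalue `lam` of `-Δ` on `D` is simple: any two Dirichlet eigenfunctions for it are linearly dependent. -/
def SimpleEigenvalue (D : Set ℂ) (lam : ℝ) : Prop :=
  ∀ φ ψ : ℂ → ℝ, DirichletEigenfunction D lam φ → DirichletEigenfunction D lam ψ →
    ∃ a b : ℝ, (a ≠ 0 ∨ b ≠ 0) ∧ ∀ x ∈ D, a * φ x + b * ψ x = 0

end Pool.Agent.Helper327_Drum
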