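import Pool.Agent.TH298.Sch.Rot1

/-! The Sobolev space of functions vanishing on the boundary and the solution operator of `1 - Δ`. -/

set_option autoImplicit false
open MeasureTheory Set Filter Topology
open scoped ContDiff InnerProductSpace

namespace Pool.Agent.Helper327_Drum

open Pool.Agent.TH298.Sch (dd SC)

/-- real square integrable functions on the plane -/
noncomputable abbrev L2 := Lp ℝ 2 (volume : Measure ℂ)

/-- triples of such functions -/
noncomputable abbrev W3 := PiLp 2 (fun _ : Fin 3 => L2)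

/-- `C¹` functions with compact support in `D` -/
def C1c (D : Set ℂ) (φ : ℂ → ℝ) : Prop := ContDiff ℝ 1 φ ∧ HasCompactSupport φ ∧ tsupport φ ⊆ D

/-- `F` is the class of (φ, ∂₁φ, ∂₂φ) for a test function φ -/
def Gr (D : Set ℂ) (F : W3) : Prop :=
  ∃ φ, C1c D φ ∧ F 0 =ᵐ[volume] φ ∧ F 1 =ᵐ[volume] dd 1 φ ∧ F 2 =ᵐ[volume] dd Complex.I φ

/-- the span of the test functions -/
noncomputable def V0 (D : Set ℂ) : Submodule ℝ W3 := Submodule.span ℝ {F | Gr D F}

/-- the Sobolev space `H¹₀(D)`, its elements being written (f, ∂₁f, ∂₂f) -/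
noncomputable def V (D : Set ℂ) : Submodule ℝ W3 := (V0 D).topologicalClosure

instance (D : Set ℂ) : CompleteSpace (V D) :=
  ((V0 D).isClosed_topologicalClosure).completeSpace_coe

/-- the embedding of `H¹₀(D)` into `L²` -/
noncomputable def io (D : Set ℂ) : V D →L[ℝ] L2 :=
  (PiLp.proj 2 (fun _ : Fin 3 => L2) 0).comp (V D).subtypeL

/-- the operator `(1 - Δ)⁻¹` with zero boundary values -/
noncomputable def K (D : Set ℂ) : L2 →L[ℝ] L2 :=
  (io D).comp (ContinuousLinearMap.adjoint (io D))

end Pool.Agent.Helper327_Drum
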