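import Pool.Agent.Helper327_Drum.Defs
import Pool.Agent.Helper327_Drum.OpDefs

/-! Classes of functions in `L²`, the solution extended by zero, eigenvalues by the min-max principle. -/

set_option autoImplicit false
open MeasureTheory Set Filter Topology
open scoped ContDiff InnerProductSpace

namespace Pool.Agent.Helper327_Drum

open Classical in
/-- the class in `L²` of a square integrable function -/
noncomputable def cl (f : ℂ → ℝ) : L2 := if h : MemLp f 2 (volume : Measure ℂ) then h.toLp f else 0

/-- the solution extended by zero -/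
noncomputable def zx (R : Set ℂ) (z : ℂ → ℝ → ℝ) (x : ℂ) (t : ℝ) : ℝ :=
  (inside R).indicator (fun y => z y t) x

/-- smooth functions with compact support in `D` -/
def IsTest (D : Set ℂ) (φ : ℂ → ℝ) : Prop :=
  ContDiff ℝ ∞ φ ∧ HasCompactSupport φ ∧ tsupport φ ⊆ D

/-- The `k`-th Dirichlet eigenvalue of `-Δ` on `D`, counted with multiplicity, by the min-max
principle: the infimum of the `r` for which there are `k` linearly independent test functions such
that `∫ |∇φ|² ≤ r ∫ φ²` for all their linear combinations `φ`. -/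
noncomputable def dirichletEigenvalue (k : ℕ) (D : Set ℂ) : ℝ :=
  sInf {r : ℝ | ∃ φ : Fin k → ℂ → ℝ, (∀ i, IsTest D (φ i)) ∧ LinearIndependent ℝ φ ∧
    ∀ a : Fin k → ℝ, ∫ x, ‖fderiv ℝ (fun y => ∑ i, a i * φ i y) x‖ ^ 2 ≤
      r * ∫ x, (∑ i, a i * φ i x) ^ 2}

end Pool.Agent.Helper327_Drum
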