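import Mathlib

/-! Regions whose eigenfunctions are found by separation of variables or by unfolding. -/

set_option autoImplicit false
open Set

namespace Pool.Agent.Helper327_Drum

/-- `K` is the image of `S` under a similarity `x ↦ σ (a x)`, `a > 0`, `σ` an isometry of the plane. -/
def Similar (K S : Set ℂ) : Prop :=
  ∃ (σ : ℂ ≃ᵢ ℂ) (a : ℝ), 0 < a ∧ K = (fun x : ℂ => σ (a * x)) '' S

/-- the open circular sector with vertex `0`, radius `1` and opening angle `α` -/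
def openSector (α : ℝ) : Set ℂ :=
  {x | ∃ r θ : ℝ, 0 < r ∧ r < 1 ∧ 0 < θ ∧ θ < α ∧ x = r * (Real.cos θ + Real.sin θ * Complex.I)}

/-- the open ellipse with centre `0` and semi-axes `A`, `B` -/
def openEllipse (A B : ℝ) : Set ℂ := {x : ℂ | (x.re / A) ^ 2 + (x.im / B) ^ 2 < 1}

/-- The open rectangles, the open triangles with angles `90°, 45°, 45°`, or `60°, 60°, 60°`, or `90°, 60°, 30°`, and the
open circular sectors with opening angle `π / N`, `N = 1, 2, 3, ...` (a half disc for `N = 1`). -/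
def FirstKind (K : Set ℂ) : Prop :=
  (∃ a b : ℝ, 0 < a ∧ 0 < b ∧ Similar K {x : ℂ | 0 < x.re ∧ x.re < a ∧ 0 < x.im ∧ x.im < b}) ∨
    Similar K {x : ℂ | 0 < x.im ∧ x.im < x.re ∧ x.re < 1} ∨
    Similar K {x : ℂ | 0 < x.im ∧ x.im < √3 * x.re ∧ x.im < √3 * (1 - x.re)} ∨
    Similar K {x : ℂ | 0 < x.im ∧ x.im < √3 * x.re ∧ x.re < 1 / 2} ∨
    ∃ N : ℕ, 1 ≤ N ∧ Similar K (openSector (Real.pi / N))

/-- The open ellipses other than discs, their halves cut off along the short axis, the open circular sectors with any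
opening angle `α < 2π`, and the coordinate rectangles `K = Φ(Q)`, where `Q = (a,b) × (c,d)` and `Φ` is an entire
function, injective on the closed rectangle, with `|Φ'(ξ + iη)|² = A(ξ) + B(η)`. Examples of the latter: `Φ ζ = e^ζ`
(parts of sectors between two concentric circles), `Φ ζ = cosh ζ` (bounded by arcs of confocal ellipses and hyperbolas,
for example the quarters of ellipses), `Φ ζ = ζ²` (bounded by arcs of confocal parabolas). -/
def SecondKind (K : Set ℂ) : Prop :=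
  (∃ A B : ℝ, 0 < B ∧ B < A ∧
    (Similar K (openEllipse A B) ∨ Similar K (openEllipse A B ∩ {x : ℂ | 0 < x.re}))) ∨
  (∃ α : ℝ, 0 < α ∧ α < 2 * Real.pi ∧ Similar K (openSector α)) ∨
  ∃ (Φ : ℂ → ℂ) (A B : ℝ → ℝ) (a b c d : ℝ), Differentiable ℂ Φ ∧
    (∀ ζ : ℂ, ‖deriv Φ ζ‖ ^ 2 = A ζ.re + B ζ.im) ∧ a < b ∧ c < d ∧
    InjOn Φ {ζ : ℂ | a ≤ ζ.re ∧ ζ.re ≤ b ∧ c ≤ ζ.im ∧ ζ.im ≤ d} ∧
    K = Φ '' {ζ : ℂ | a < ζ.re ∧ ζ.re < b ∧ c < ζ.im ∧ ζ.im < d}

end Pool.Agent.Helper327_Drum
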