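import Pool.Agent.Helper327_Drum.Defs

/-! The set of points at which the gradient of a drum solution vanishes at all times. -/

set_option autoImplicit false
open Filter Topology

namespace Pool.Agent.Helper327_Drum

/-- The points of the closed region at which the gradient vanishes at all times. -/
def still (R : Set ℂ) (g : ℂ → ℝ → ℂ) : Set ℂ := {x | x ∈ inside R ∪ R ∧ ∀ t, g x t = 0}

/-- The set of still points is not discrete: it accumulates in the open region, or it contains a connected
set with more than one point (for example an arc or a closed curve). -/
def NotDiscrete (R : Set ℂ) (g : ℂ → ℝ → ℂ) : Prop :=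
  (∃ x₀ ∈ inside R, AccPt x₀ (𝓟 (still R g))) ∨
    ∃ K : Set ℂ, K ⊆ still R g ∧ IsPreconnected K ∧ K.Nontrivial

end Pool.Agent.Helper327_Drum
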