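import Pool.Agent.Helper327_Drum.Fin.SEC2
import Pool.Agent.Helper327_Drum.Fin.EQ4

/-! The special shapes. -/

set_option autoImplicit false
open Set

namespace Pool.Agent.Helper327_Drum

/-- The basic shapes: an open rectangle `rect a b = (0,a) × (0,b)`, the open right isosceles triangle with vertices
`0`, `1`, `1 + i`, the open equilateral triangle `eqtri 1` with vertices `0`, `1`, `e^{iπ/3}`, the open triangle
`hemitri 1` with vertices `0`, `1/2`, `e^{iπ/3}` (angles 60°, 90°, 30°), and the open circular sectors `sector N` with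
radius `1` and opening angle `π / N` (a half disc for `N = 1`). -/
def Basic (S : Set ℂ) : Prop :=
  (∃ a b : ℝ, 0 < a ∧ 0 < b ∧ S = rect a b) ∨ S = {x : ℂ | 0 < x.im ∧ x.im < x.re ∧ x.re < 1} ∨
    S = eqtri 1 ∨ S = hemitri 1 ∨ ∃ N : ℕ, 1 ≤ N ∧ S = sector N

/-- The images of the basic shapes under similarities `x ↦ σ (a x)`, `a > 0`, `σ` an isometry of the plane. -/
def Special (K : Set ℂ) : Prop :=
  ∃ S, Basic S ∧ ∃ (σ : ℂ ≃ᵢ ℂ) (a : ℝ), 0 < a ∧ K = (fun x : ℂ => σ (a * x)) '' S

end Pool.Agent.Helper327_Drum
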