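import Pool.Agent.Helper327_Drum.SpDefs
import Pool.Agent.Helper327_Drum.Fin.AS14
import Pool.Agent.Helper327_Drum.Fin.SR1

/-! Regions in which the Helmholtz equation can be solved by separation of variables. -/

set_option autoImplicit false
open Set

namespace Pool.Agent.Helper327_Drum

/-- The coordinate rectangles: `K = Φ(Q)` for an open rectangle `Q = (a,b) × (c,d)` and an entire function `Φ`, injective
on the closed rectangle, with `|Φ'(ξ + iη)|² = A(ξ) + B(η)`. Examples: `Φ ζ = e^ζ` (parts of sectors between concentric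
circles), `Φ ζ = cosh ζ` (bounded by arcs of confocal ellipses and hyperbolas), `Φ ζ = ζ²` (bounded by arcs of confocal
parabolas). -/
def CoordRect (K : Set ℂ) : Prop :=
  ∃ (Φ : ℂ → ℂ) (A B : ℝ → ℝ) (a b c d : ℝ), Differentiable ℂ Φ ∧
    (∀ ζ : ℂ, ‖deriv Φ ζ‖ ^ 2 = A ζ.re + B ζ.im) ∧ a < b ∧ c < d ∧
    InjOn Φ (closure (crect a b c d)) ∧ K = Φ '' crect a b c d

/-- The open ellipses `elli A B` with semi-axes `A > B > 0`, their halves cut off along the short axis, and the open
circular sectors `gsec α` with any opening angle `α < 2π`. -/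
def Basic2 (S : Set ℂ) : Prop :=
  (∃ A B : ℝ, 0 < B ∧ B < A ∧ (S = elli A B ∨ S = elli A B ∩ {x | 0 < x.re})) ∨
    ∃ α : ℝ, 0 < α ∧ α < 2 * Real.pi ∧ S = gsec α

/-- The coordinate rectangles and the images of the sets of `Basic2` under similarities `x ↦ σ (a x)`, `a > 0`, `σ` an
isometry of the plane. -/
def Separable2 (K : Set ℂ) : Prop :=
  CoordRect K ∨ ∃ S, Basic2 S ∧ ∃ (σ : ℂ ≃ᵢ ℂ) (a : ℝ), 0 < a ∧ K = (fun x : ℂ => σ (a * x)) '' S

end Pool.Agent.Helper327_Drum
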