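import Mathlib

/-! Coordinate rectangles. -/

set_option autoImplicit false
open Set

namespace Pool.Agent.Helper327_Drum

/-- the open rectangle `(a,b) × (c,d)` -/
def crect (a b c d : ℝ) : Set ℂ := {ζ : ℂ | a < ζ.re ∧ ζ.re < b ∧ c < ζ.im ∧ ζ.im < d}

/-- the functions `sin (m π (x-a)/(b-a)) sin (n π (y-c)/(d-c))` -/
noncomputable def smn (a b c d : ℝ) (m n : ℕ) (ζ : ℂ) : ℝ :=
  Real.sin (m * Real.pi * (ζ.re - a) / (b - a)) * Real.sin (n * Real.pi * (ζ.im - c) / (d - c))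

end Pool.Agent.Helper327_Drum
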